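import Pool.Agent.MP_923662_nt.Final

/-!
# MP_923662_nt: `limsup f(N)/N > 1/2`

`f N` is the largest size of a set `A ⊆ {1, …, N}` such that `a + b` does not divide `a b` for
distinct `a, b ∈ A`.
-/

set_option autoImplicit false

namespace Pool.Agent.Results.MP_923662_nt.LimsupAboveHalf

/-- `a + b ∤ a b` for all distinct `a, b ∈ A` -/
def Admissible (A : Finset ℕ) : Prop :=
  ∀ a ∈ A, ∀ b ∈ A, a ≠ b → ¬ (a + b ∣ a * b)

open Classical in
/-- The largest cardinality of an admissible subset of `{1, …, N}`. -/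
noncomputable def f (N : ℕ) : ℕ :=
  ((Finset.Icc 1 N).powerset.filter Admissible).sup Finset.card

theorem le_f {N : ℕ} {A : Finset ℕ} (hA : A ⊆ Finset.Icc 1 N) (h : Admissible A) :
    A.card ≤ f N := by
  classical
  exact Finset.le_sup (f := Finset.card)
    (Finset.mem_filter.2 ⟨Finset.mem_powerset.2 hA, h⟩)

theorem f_le (N : ℕ) : f N ≤ N := by
  classical
  refine Finset.sup_le fun A hA => ?_
  have h1 := Finset.card_le_card (Finset.mem_powerset.1 (Finset.mem_filter.1 hA).1)
  rwa [Nat.card_Icc, Nat.add_sub_cancel] at h1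

/-- The upper limit of `f(N)/N` is greater than `1/2`. -/
theorem result : (1 : ℝ) / 2 < Filter.limsup (fun N : ℕ => (f N : ℝ) / N) Filter.atTop := by
  obtain ⟨ε, hε, h⟩ := Pool.Agent.MP923662.main
  have hb : Filter.IsBoundedUnder (· ≤ ·) Filter.atTop (fun N : ℕ => (f N : ℝ) / N) := by
    refine Filter.isBoundedUnder_of ⟨1, fun N => ?_⟩
    rcases Nat.eq_zero_or_pos N with rfl | hN
    · simp
    · rw [div_le_one (by exact_mod_cast hN)]
      exact_mod_cast f_le N
  have hfr : ∃ᶠ N : ℕ in Filter.atTop, (1 : ℝ) / 2 + ε ≤ (f N : ℝ) / N := by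
    rw [Filter.frequently_atTop]
    intro M
    obtain ⟨N, hMN, A, hA, hA', hc⟩ := h (M + 1)
    refine ⟨N, by omega, ?_⟩
    have hN : 0 < N := by omega
    rw [le_div_iff₀ (by exact_mod_cast hN)]
    exact hc.trans (by exact_mod_cast le_f hA hA')
  have h1 : (1 : ℝ) / 2 + ε ≤ Filter.limsup (fun N : ℕ => (f N : ℝ) / N) Filter.atTop :=
    Filter.le_limsup_of_frequently_le hfr hb
  linarith

end Pool.Agent.Results.MP_923662_nt.LimsupAboveHalf
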